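import Pool.Agent.GR72.DBFinal

set_option autoImplicit false

/-! # The Solomon-Stiffler condition decides almost all pairs

Definitions: `IsCode n k d C`, `griesmer k d`, `minLength k d`, `Attained k d`, `exps D`
(`Pool/Agent/GR72/CodeDefs.lean`), `BelovCond k d` (`Pool/Agent/GR72/DAOut.lean`). -/

namespace Pool.Agent.Results.MP_13345a_lc.AlmostAll

open Pool.Agent.GR72

open Classical in
/-- For all `k, s ≥ 1`: among the `2^(k-1)` integers `d` with `(s-1) 2^(k-1) < d ≤ s 2^(k-1)` there
are at most `60000 (1 + log k)^3 k^(-3/4) 2^(k-1)` for which the Griesmer bound is attained without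
the condition of Solomon, Stiffler and Belov, or the other way round. -/
theorem result (k s : ℕ) (hk : 1 ≤ k) (hs : 1 ≤ s) :
    (((Finset.Ioc ((s - 1) * 2 ^ (k - 1)) (s * 2 ^ (k - 1))).filter
      (fun d => ¬ (Attained k d ↔ BelovCond k d))).card : ℝ) * (k : ℝ) ^ (3 / 4 : ℝ) ≤
        60000 * (1 + Real.log k) ^ 3 * 2 ^ (k - 1) :=
  almost_all2_d hk hs

end Pool.Agent.Results.MP_13345a_lc.AlmostAll
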