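import Pool.Agent.GR72.Crit3Final

set_option autoImplicit false

/-! # Binary codes meeting the Griesmer bound: a criterion for all pairs, with an explicit error

Definitions: `IsCode n k d C`, `griesmer k d`, `minLength k d`, `Attained k d`, `exps D`
(`Pool/Agent/GR72/CodeDefs.lean`), `topRun k D`, `bonus k s D` (`Pool/Agent/GR72/Deep2Defs.lean`),
`badRuns k s D`, `runErr k s D` (`Pool/Agent/GR72/BadRuns.lean`). -/

namespace Pool.Agent.Results.MP_13345a_lc.Criterion

open Pool.Agent.GR72

/-- Let `k, d ≥ 1`, `s = ⌈d / 2^(k-1)⌉` and `D = s 2^(k-1) - d = ∑ 2^(u_i - 1)` with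
`u_1 > u_2 > ... ≥ 1`, and let `S` be the sum of the `s + 1` largest `u_i` (of all of them if there
are fewer).
If `S ≤ s k + bonus k s D` then the Griesmer bound is attained at `(k, d)`.
If it is attained at `(k, d)` then `S ≤ s k + bonus k s D + runErr k s D`.
Here `bonus k s D = q - 1` if the `u_i` begin with exactly the run `k - 1, k - 2, ..., k - q`,
`1 ≤ q ≤ s + 1`, and `0` otherwise; `runErr k s D` is the sum of `q (q + 1) / 2` over the maximal
runs `u, ..., u - q + 1` of `q ≥ 3` consecutive exponents that contain at least two of the `s + 1`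
largest exponents and either are not contained in them or satisfy `q ≥ 4` and
`u + q (q - 1) / 2 > k`.  Without such runs the two conditions coincide. -/
theorem result (k d s D : ℕ) (hk : 1 ≤ k) (hd : 1 ≤ d)
    (hs : s = d ⌈/⌉ 2 ^ (k - 1)) (hD : D = s * 2 ^ (k - 1) - d) :
    (((exps D).take (s + 1)).sum ≤ s * k + bonus k s D → Attained k d) ∧
      (Attained k d → ((exps D).take (s + 1)).sum ≤ s * k + bonus k s D + runErr k s D) :=
  griesmer_bounds hk hd hs hD

end Pool.Agent.Results.MP_13345a_lc.Criterion
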