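import Pool.Agent.GR72.DecompGen

set_option autoImplicit false

/-! # Decomposition of binary codes meeting the Griesmer bound

Definitions: `griesmer k d` (`Pool/Agent/GR72/CodeDefs.lean`); in `Pool/Agent/GR72/Gen.lean`:
`word G a` is the codeword `(∑ j, a j * G i j)_i`, `IsGen n k d G` says that the `n` columns
`G i ∈ F_2^k` generate a binary linear `[n, k, d]` code (all words with `a ≠ 0` have weight `≥ d`,
some of them weight `d`), `mult G x` is the number of columns equal to `x`; in
`Pool/Agent/GR72/DecompGen.lean`: `dist k s D = s 2^(k-1) - D`. -/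

namespace Pool.Agent.Results.MP_13345a_lc.Decomposition

open Pool.Agent.GR72

/-- Let `k, d ≥ 1`, `s = ⌈d / 2^(k-1)⌉`, `D = s 2^(k-1) - d`, and let `D = D1 + D2` where `2^(j+1)`
divides `D1` and `D2 < 2^j` (so the binary digit `j` of `D` is `0`, `D1` consists of the higher
and `D2` of the lower binary ones of `D`).  Put `d1 = s 2^(k-1) - D1`, `d2 = s 2^(k-1) - D2`.
For every generator matrix `G` of a binary linear `[g(k,d), k, d]` code there are generator
matrices `A`, `B` of a `[g(k,d1), k, d1]` and a `[g(k,d2), k, d2]` code such that every nonzero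
vector of `F_2^k` occurs among the columns of `A` and `B` together exactly `s` times more often
than among the columns of `G`.  That is, the code together with `s` copies of the simplex code is,
up to a permutation of the coordinates, the juxtaposition of two codes meeting the Griesmer
bound. -/
theorem result (k d s D D1 D2 j : ℕ) (hk : 1 ≤ k) (hd : 1 ≤ d)
    (hs : s = d ⌈/⌉ 2 ^ (k - 1)) (hD : D = s * 2 ^ (k - 1) - d) (hsum : D = D1 + D2)
    (h1 : 2 ^ (j + 1) ∣ D1) (h2 : D2 < 2 ^ j)
    (G : Fin (griesmer k d) → Fin k → ZMod 2) (hG : IsGen (griesmer k d) k d G) :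
    ∃ (A : Fin (griesmer k (dist k s D1)) → Fin k → ZMod 2)
      (B : Fin (griesmer k (dist k s D2)) → Fin k → ZMod 2),
      IsGen (griesmer k (dist k s D1)) k (dist k s D1) A ∧
      IsGen (griesmer k (dist k s D2)) k (dist k s D2) B ∧
      ∀ x, x ≠ 0 → mult A x + mult B x = mult G x + s :=
  decomposition_gen hk hd hs hD hsum h1 h2 G hG

end Pool.Agent.Results.MP_13345a_lc.Decomposition
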