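import Pool.Agent.GR72.THFinal

set_option autoImplicit false

/-! # From which minimum distance on is the Griesmer bound attained?

Definitions: `IsCode n k d C`, `griesmer k d`, `minLength k d`, `Attained k d`
(`Pool/Agent/GR72/CodeDefs.lean`). -/

namespace Pool.Agent.Results.MP_13345a_lc.Threshold

open Pool.Agent.GR72

/-- The Griesmer bound is attained at `(k, d)` for all `d > √(2k) 2^(k-1)`, and for `k ≥ 18` there is
an integer `d > (√(2k) - 3 (2k)^(1/4)) 2^(k-1)` such that it is not attained at `(k, d)`. -/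
theorem result (k : ℕ) (hk : 1 ≤ k) :
    (∀ d : ℕ, √(2 * (k : ℝ)) * 2 ^ (k - 1) < d → Attained k d) ∧
      (18 ≤ k → ∃ d : ℕ, (√(2 * (k : ℝ)) - 3 * √(√(2 * (k : ℝ)))) * 2 ^ (k - 1) < d ∧
        ¬ Attained k d) :=
  ⟨fun _ h => attained_large hk h, fun h => not_attained_large h⟩

end Pool.Agent.Results.MP_13345a_lc.Threshold
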